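import Pool.Agent.H14.AVR.Stmts

/-!
# AVR, module KEY: every point is represented by an integral symmetric matrix
-/

set_option autoImplicit false

namespace Pool.AVR

namespace KEY

open Polynomial Matrix

section General

variable {K : Type} [Field K]

theorem rep_symm {a b c x y : K} {G B : Matrix (Fin 3) (Fin 3) K} (h : Rep a b c x y G B) :
    Gᵀ = G ∧ Bᵀ = B := by
  obtain ⟨e, h1, h2⟩ := h
  constructor
  · ext i j
    rw [Matrix.transpose_apply, ← h1, ← h1, mul_comm (e j) (e i)]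
  · ext i j
    rw [Matrix.transpose_apply, ← h2, ← h2, mul_comm (e j) (e i)]

/-- The equation without denominators. -/
theorem clear_eq {a b c u v w : K} (hw : w ≠ 0) (h : OnC a b c (u / w ^ 2) (v / w ^ 3)) :
    v ^ 2 = u ^ 3 + a * u ^ 2 * w ^ 2 + b * u * w ^ 4 + c * w ^ 6 := by
  unfold OnC at h
  field_simp at h
  linear_combination h

/-- The equation after scaling. -/
theorem scale_eq {a b c x y t : K} (ht : t ≠ 0) (h : OnC a b c x y) :
    OnC (a / t ^ 2) (b / t ^ 4) (c / t ^ 6) (x / t ^ 2) (y / t ^ 3) := by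
  unfold OnC at h ⊢
  field_simp
  linear_combination h

end General

section Function

variable {F : Type} [Field F]

theorem mem_OInf_iff (x : RatFunc F) : x ∈ OInf F ↔ x.intDegree ≤ 0 := Iff.rfl

/-- `a / X ^ k` is regular at infinity if `a` has degree at most `k`. -/
theorem div_mem_OInf (a : F[X]) (k : ℕ) (h : a.natDegree ≤ k) :
    algebraMap F[X] (RatFunc F) a / (RatFunc.X : RatFunc F) ^ k ∈ OInf F := by
  rw [mem_OInf_iff]
  by_cases ha : a = 0
  · simp [ha]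
  have ha' : algebraMap F[X] (RatFunc F) a ≠ 0 := by
    simpa using ha
  have hX : (RatFunc.X : RatFunc F) ^ k ≠ 0 := pow_ne_zero _ RatFunc.X_ne_zero
  have hX1 : (RatFunc.X : RatFunc F) ^ k = algebraMap F[X] (RatFunc F) ((X : F[X]) ^ k) := by
    rw [map_pow, RatFunc.algebraMap_X]
  have hXi : ((RatFunc.X : RatFunc F) ^ k).intDegree = (k : ℤ) := by
    rw [hX1, RatFunc.intDegree_polynomial, natDegree_X_pow]
  rw [div_eq_mul_inv, RatFunc.intDegree_mul ha' (inv_ne_zero hX), RatFunc.intDegree_inv,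
    RatFunc.intDegree_polynomial, hXi]
  have : (a.natDegree : ℤ) ≤ k := by exact_mod_cast h
  omega

/-- Products of matrices with entries in a subring. -/
theorem mul_entries {K : Type} [Field K] (O : Subring K) (A B : Matrix (Fin 3) (Fin 3) K)
    (hA : ∀ i j, A i j ∈ O) (hB : ∀ i j, B i j ∈ O) : ∀ i j, (A * B) i j ∈ O := by
  intro i j
  rw [Matrix.mul_apply]
  exact O.sum_mem fun k _ => O.mul_mem (hA i k) (hB k j)

theorem lift_entries (A : Matrix (Fin 3) (Fin 3) (RatFunc F))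
    (hA : ∀ i j, A i j ∈ (algebraMap F[X] (RatFunc F)).range) :
    ∃ A' : Matrix (Fin 3) (Fin 3) F[X], A'.map (algebraMap F[X] (RatFunc F)) = A := by
  choose p hp using fun i j => (RingHom.mem_range.1 (hA i j))
  exact ⟨Matrix.of p, by ext i j; simp [hp]⟩

end Function

end KEY

open Polynomial Matrix KEY

theorem key_thm (hLAT : LATStmt) (hDEN : DENStmt) (hDNI : DNIStmt) (hSCL : SCLStmt)
    (hBAS : BASStmt) (hCHB : CHBStmt) (hBIR : BIRStmt) (hNRM : NRMStmt) : KEYStmt := by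
  intro F _ _ h2 n f hf x y hxy hy
  obtain ⟨a, b, c⟩ := f
  obtain ⟨hda, hdb, hdc⟩ := hf
  simp only at hda hdb hdc hxy ⊢
  set φ := algebraMap F[X] (RatFunc F) with hφ
  have hφi : Function.Injective φ := RatFunc.algebraMap_injective F
  have hmi : Function.Injective
      (fun M : Matrix (Fin 3) (Fin 3) F[X] => M.map φ) := Matrix.map_injective hφi
  -- the finite part
  obtain ⟨u, v, w, hw, hwv, hx1, hy1⟩ := hDEN F a b c x y hxy
  have hv : v ≠ 0 := by
    rintro rfl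
    apply hy
    rw [hy1]
    simp
  obtain ⟨r, s, hrs⟩ := hwv
  have hw' : φ w ≠ 0 := by
    intro h
    exact hw (hφi (by rw [h, map_zero]))
  have hv' : φ v ≠ 0 := by
    intro h
    exact hv (hφi (by rw [h, map_zero]))
  have hmem : ∀ p : F[X], φ p ∈ φ.range := fun p => ⟨p, rfl⟩
  obtain ⟨G1, B1, hrep1, hG1, hB1, hdet1⟩ := hLAT (RatFunc F) φ.range (φ a) (φ b) (φ c)
    (φ u) (φ v) (φ w) (φ r) (φ s) (hmem _) (hmem _) (hmem _) (hmem _) (hmem _) (hmem _)
    (hmem _) (hmem _) hw' hv' (by rw [← map_mul, ← map_mul, ← map_add, hrs, map_one])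
    (clear_eq hw' (by rw [← hx1, ← hy1]; exact hxy))
  rw [← hx1, ← hy1] at hrep1
  obtain ⟨Gp, hGp⟩ := lift_entries G1 hG1
  obtain ⟨Bp, hBp⟩ := lift_entries B1 hB1
  -- the part at infinity
  set t : RatFunc F := (RatFunc.X : RatFunc F) ^ n with ht
  have ht0 : t ≠ 0 := pow_ne_zero _ RatFunc.X_ne_zero
  have ht2 : t ^ 2 = (RatFunc.X : RatFunc F) ^ (2 * n) := by rw [ht, ← pow_mul, mul_comm]
  have ht4 : t ^ 4 = (RatFunc.X : RatFunc F) ^ (4 * n) := by rw [ht, ← pow_mul, mul_comm]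
  have ht6 : t ^ 6 = (RatFunc.X : RatFunc F) ^ (6 * n) := by rw [ht, ← pow_mul, mul_comm]
  have ha' : φ a / t ^ 2 ∈ OInf F := by rw [ht2]; exact div_mem_OInf a _ hda
  have hb' : φ b / t ^ 4 ∈ OInf F := by rw [ht4]; exact div_mem_OInf b _ hdb
  have hc' : φ c / t ^ 6 ∈ OInf F := by rw [ht6]; exact div_mem_OInf c _ hdc
  have hxy' := scale_eq ht0 hxy
  have hy' : y / t ^ 3 ≠ 0 := div_ne_zero hy (pow_ne_zero _ ht0)
  obtain ⟨u', v', w', r', s', hu', hv'', hw'', hr', hs', hw0, hv0, hrs', hx2, hy2⟩ :=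
    hDNI F (φ a / t ^ 2) (φ b / t ^ 4) (φ c / t ^ 6) (x / t ^ 2) (y / t ^ 3) ha' hb' hc' hxy' hy'
  obtain ⟨G2, B2, hrep2, hG2, hB2, hdet2⟩ := hLAT (RatFunc F) (OInf F) (φ a / t ^ 2)
    (φ b / t ^ 4) (φ c / t ^ 6) u' v' w' r' s' ha' hb' hc' hu' hv'' hw'' hr' hs' hw0 hv0 hrs'
    (clear_eq hw0 (by rw [← hx2, ← hy2]; exact hxy'))
  rw [← hx2, ← hy2] at hrep2
  have hrep3 := hSCL (RatFunc F) (φ a) (φ b) (φ c) x y t G2 B2 ht0 hy hrep2
  -- comparison
  have hdet2' : G2.det ≠ 0 := by rw [hdet2]; simp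
  obtain ⟨g, hg1, hg2⟩ := hBAS (RatFunc F) (φ a) (φ b) (φ c) x y hxy hy G1 B1 G2 (t ^ 2 • B2)
    hrep1 hrep3 hdet2'
  have hgdet : g.det ≠ 0 := by
    intro h
    have := congrArg Matrix.det hg1
    rw [Matrix.det_mul, Matrix.det_mul, h, mul_zero, hdet1] at this
    simp at this
  obtain ⟨γ, d, κ, hγ, hκ, hκ0, hκ1, hfac⟩ := hBIR F g hgdet
  obtain ⟨q, hq, hqC⟩ := Polynomial.isUnit_iff.1 hγ
  have hq0 : q ≠ 0 := hq.ne_zero
  set D : Matrix (Fin 3) (Fin 3) (RatFunc F) :=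
    Matrix.diagonal (fun i => (RatFunc.X : RatFunc F) ^ d i) with hD
  have hDT : Dᵀ = D := by rw [hD, Matrix.diagonal_transpose]
  have hsym1 := rep_symm hrep1
  have hGpT : Gpᵀ = Gp := by
    apply hmi
    simp only
    rw [Matrix.transpose_map, hGp, hsym1.1]
  have hBpT : Bpᵀ = Bp := by
    apply hmi
    simp only
    rw [Matrix.transpose_map, hBp, hsym1.2]
  have hGpdet : Gp.det = -1 := by
    apply hφi
    rw [RingHom.map_det, map_neg, map_one, ← hdet1, ← hGp]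
    rfl
  have hκT : ∀ i j, κᵀ i j ∈ OInf F := fun i j => hκ j i
  obtain ⟨m, γ', hγ1, hγ2⟩ := hNRM F h2 n (γᵀ * Gp * γ) (γᵀ * Bp * γ) (κᵀ * G2 * κ)
    (κᵀ * B2 * κ) d q hq0
    (by rw [Matrix.transpose_mul, Matrix.transpose_mul, Matrix.transpose_transpose, hGpT,
      Matrix.mul_assoc])
    (by rw [Matrix.transpose_mul, Matrix.transpose_mul, Matrix.transpose_transpose, hBpT,
      Matrix.mul_assoc])
    (by
      rw [Matrix.det_mul, Matrix.det_mul, Matrix.det_transpose, hGpdet, ← hqC, map_pow]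
      ring)
    (mul_entries _ _ _ (mul_entries _ _ _ hκT hG2) hκ)
    (mul_entries _ _ _ (mul_entries _ _ _ hκT hB2) hκ)
    (by
      rw [Matrix.det_mul, Matrix.det_mul, Matrix.det_transpose]
      exact mul_ne_zero (mul_ne_zero hκ0 hdet2') hκ0)
    (by
      rw [Matrix.det_mul, Matrix.det_mul, Matrix.det_transpose, hdet2]
      have : (κ.det * -1 * κ.det)⁻¹ = -((κ.det)⁻¹ * (κ.det)⁻¹) := by
        rw [mul_neg_one, neg_mul, inv_neg, mul_inv]
      rw [this]
      exact (OInf F).neg_mem ((OInf F).mul_mem hκ1 hκ1))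
    (by
      have h1 : (γᵀ * Gp * γ).map φ = (g * γ.map φ)ᵀ * G2 * (g * γ.map φ) := by
        rw [Matrix.map_mul, Matrix.map_mul, hGp, hg1, Matrix.transpose_mul, Matrix.transpose_map]
        simp only [Matrix.mul_assoc]
      rw [h1, hfac, Matrix.transpose_mul, hDT, hD]
      simp only [Matrix.mul_assoc])
    (by
      have h1 : (γᵀ * Bp * γ).map φ = (g * γ.map φ)ᵀ * (t ^ 2 • B2) * (g * γ.map φ) := by
        rw [Matrix.map_mul, Matrix.map_mul, hBp, hg2, Matrix.transpose_mul, Matrix.transpose_map]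
        simp only [Matrix.mul_assoc]
      rw [h1, hfac, Matrix.transpose_mul, hDT, ht2, hD]
      simp only [Matrix.mul_assoc, Matrix.mul_smul, Matrix.smul_mul])
  refine ⟨m, γ'ᵀ * (γᵀ * Bp * γ) * γ', hγ2, ?_⟩
  have hrep4 := hCHB (RatFunc F) (φ a) (φ b) (φ c) x y G1 B1 ((γ * γ').map φ) hrep1
  have e1 : ((γ * γ').map φ)ᵀ * G1 * (γ * γ').map φ = AA (RatFunc F) := by
    have h1 : ((γ * γ').map φ)ᵀ * G1 * (γ * γ').map φ =
        (γ'ᵀ * (γᵀ * Gp * γ) * γ').map φ := by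
      rw [← hGp, ← Matrix.transpose_map, ← Matrix.map_mul, ← Matrix.map_mul, Matrix.transpose_mul]
      simp only [Matrix.mul_assoc]
    rw [h1, hγ1]
    ext i j
    fin_cases i <;> fin_cases j <;> simp [AA]
  have e2 : ((γ * γ').map φ)ᵀ * B1 * (γ * γ').map φ =
      (γ'ᵀ * (γᵀ * Bp * γ) * γ').map φ := by
    rw [← hBp, ← Matrix.transpose_map, ← Matrix.map_mul, ← Matrix.map_mul, Matrix.transpose_mul]
    simp only [Matrix.mul_assoc]
  rw [e1, e2] at hrep4
  exact hrep4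

end Pool.AVR
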